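import Mathlib
import Pool.Agent.Helper99.BQ.Defs

/-!
# Block L1 for MP_986e36_gt: the Riemannian distance is infinitesimally the norm of the tangent
space, in the extended chart.
-/

open scoped Manifold ContDiff ENNReal Topology NNReal
open Bundle Set Metric MeasureTheory Manifold Filter

noncomputable section

namespace Helper99.BQ

namespace L1

variable
  {E : Type*} [NormedAddCommGroup E] [NormedSpace ℝ E]
  {M : Type*} [TopologicalSpace M] [ChartedSpace E M]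
  [RiemannianBundle (fun x : M => TangentSpace 𝓘(ℝ, E) x)]
  [IsManifold 𝓘(ℝ, E) 1 M]
  [IsContinuousRiemannianBundle E (fun x : M => TangentSpace 𝓘(ℝ, E) x)]

/-- the identity map from the model space to the tangent space at the base point -/
def S (x₀ : M) : E →L[ℝ] TangentSpace 𝓘(ℝ, E) x₀ :=
  (trivializationAt E (fun x : M => TangentSpace 𝓘(ℝ, E) x) x₀).symmL ℝ x₀

def A (x₀ : M) : TangentSpace 𝓘(ℝ, E) x₀ →L[ℝ] E :=
  (trivializationAt E (fun x : M => TangentSpace 𝓘(ℝ, E) x) x₀).continuousLinearMapAt ℝ x₀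

omit [RiemannianBundle (fun x : M => TangentSpace 𝓘(ℝ, E) x)]
  [IsContinuousRiemannianBundle E (fun x : M => TangentSpace 𝓘(ℝ, E) x)] in
lemma S_apply (x₀ : M) (v : E) : S x₀ v = (show TangentSpace 𝓘(ℝ, E) x₀ from v) := by
  unfold S
  rw [TangentBundle.symmL_trivializationAt_eq_core (mem_chart_source E x₀)]
  exact (tangentBundleCore 𝓘(ℝ, E) M).coordChange_self (achart E x₀) x₀ (mem_chart_source E x₀) v

omit [RiemannianBundle (fun x : M => TangentSpace 𝓘(ℝ, E) x)]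
  [IsContinuousRiemannianBundle E (fun x : M => TangentSpace 𝓘(ℝ, E) x)] in
lemma A_apply (x₀ : M) (v : TangentSpace 𝓘(ℝ, E) x₀) : A x₀ v = (show E from v) := by
  unfold A
  rw [TangentBundle.continuousLinearMapAt_trivializationAt_eq_core (mem_chart_source E x₀)]
  exact (tangentBundleCore 𝓘(ℝ, E) M).coordChange_self (achart E x₀) x₀ (mem_chart_source E x₀) v

omit [RiemannianBundle (fun x : M => TangentSpace 𝓘(ℝ, E) x)]
  [IsContinuousRiemannianBundle E (fun x : M => TangentSpace 𝓘(ℝ, E) x)] in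
lemma A_S (x₀ : M) (v : E) : A x₀ (S x₀ v) = v := by
  rw [A_apply, S_apply]

set_option backward.isDefEq.respectTransparency false in
lemma symm_bound (x₀ : M) {r : ℝ≥0} (hr : 1 < r) :
    ∀ᶠ e in 𝓝 (extChartAt 𝓘(ℝ, E) x₀ x₀), e ∈ (extChartAt 𝓘(ℝ, E) x₀).target ∧
      ∀ v : E, ‖(mfderiv[range 𝓘(ℝ, E)] (extChartAt 𝓘(ℝ, E) x₀).symm e) v‖ₑ ≤
        r * ‖S x₀ v‖ₑ := by
  have h1 := eventually_norm_symmL_trivializationAt_comp_self_lt E
    (fun x : M => TangentSpace 𝓘(ℝ, E) x) x₀ (r := r) (by exact_mod_cast hr)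
  have h2 : 𝓝 x₀ = 𝓝 ((extChartAt 𝓘(ℝ, E) x₀).symm (extChartAt 𝓘(ℝ, E) x₀ x₀)) := by simp
  rw [h2] at h1
  have h3 : ContinuousAt (extChartAt 𝓘(ℝ, E) x₀).symm (extChartAt 𝓘(ℝ, E) x₀ x₀) :=
    continuousAt_extChartAt_symm _
  filter_upwards [h3.preimage_mem_nhds h1, extChartAt_target_mem_nhds (I := 𝓘(ℝ, E)) x₀] with e he h'e
  refine ⟨h'e, fun v => ?_⟩
  have h4 : e = extChartAt 𝓘(ℝ, E) x₀ ((extChartAt 𝓘(ℝ, E) x₀).symm e) := by
    simp [-extChartAt, h'e]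
  have h5 : (extChartAt 𝓘(ℝ, E) x₀).symm e ∈ (chartAt E x₀).source := by
    have := (extChartAt 𝓘(ℝ, E) x₀).map_target h'e
    simpa [extChartAt_source] using this
  simp only [preimage_ofPred_eq, mem_ofPred_eq] at he
  set y := (extChartAt 𝓘(ℝ, E) x₀).symm e with hy
  have h7 := ContinuousLinearMap.le_of_opNorm_le _ he.le (S x₀ v)
  rw [ContinuousLinearMap.comp_apply] at h7
  have h8 : ((trivializationAt E (fun x : M => TangentSpace 𝓘(ℝ, E) x) x₀).continuousLinearMapAt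
    ℝ x₀) (S x₀ v) = v := A_S x₀ v
  rw [h8, TangentBundle.symmL_trivializationAt h5] at h7
  have h9 : ‖(mfderiv[range 𝓘(ℝ, E)] (extChartAt 𝓘(ℝ, E) x₀).symm e) v‖ ≤ r * ‖S x₀ v‖ := by
    convert! h7 using 2; congr
  simp only [enorm, nnnorm]
  exact_mod_cast h9

lemma fderiv_lineMap (x y : E) (t : ℝ) :
    fderiv ℝ (ContinuousAffineMap.lineMap (R := ℝ) x y) t 1 = y - x := by simp

attribute [local instance] normedAddCommGroupTangentSpaceVectorSpace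
attribute [local instance] normedSpaceTangentSpaceVectorSpace

set_option backward.isDefEq.respectTransparency false in
lemma upper (x₀ : M) {r : ℝ≥0} (hr : 1 < r) :
    ∃ U ∈ 𝓝 x₀, ∀ y ∈ U, ∀ z ∈ U, riemannianEDist 𝓘(ℝ, E) y z ≤
        r * ‖S x₀ (extChartAt 𝓘(ℝ, E) x₀ z - extChartAt 𝓘(ℝ, E) x₀ y)‖ₑ := by
  obtain ⟨ρ, ρpos, hρ⟩ := Metric.mem_nhds_iff.1 (symm_bound (E := E) x₀ hr)
  have hA : (extChartAt 𝓘(ℝ, E) x₀) ⁻¹' (ball (extChartAt 𝓘(ℝ, E) x₀ x₀) ρ) ∈ 𝓝 x₀ :=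
    (continuousAt_extChartAt (I := 𝓘(ℝ, E)) x₀).preimage_mem_nhds (ball_mem_nhds _ ρpos)
  refine ⟨_, inter_mem hA (chart_source_mem_nhds E x₀), ?_⟩
  rintro y ⟨hy, h'y⟩ z ⟨hz, h'z⟩
  let η := ContinuousAffineMap.lineMap (R := ℝ) (extChartAt 𝓘(ℝ, E) x₀ y) (extChartAt 𝓘(ℝ, E) x₀ z)
  set γ := (extChartAt 𝓘(ℝ, E) x₀).symm ∘ η
  have hη : Icc (0 : ℝ) 1 ⊆ ⇑η ⁻¹' ((extChartAt 𝓘(ℝ, E) x₀).target ∩
        {e | ∀ v : E, ‖(mfderiv[range 𝓘(ℝ, E)] (extChartAt 𝓘(ℝ, E) x₀).symm e) v‖ₑ ≤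
        r * ‖S x₀ v‖ₑ}) := by
    simp only [← image_subset_iff, ContinuousAffineMap.coe_lineMap_eq,
     ← segment_eq_image_lineMap, η]
    apply Subset.trans _ hρ
    exact (convex_ball _ _).segment_subset hy hz
  simp only [preimage_inter, subset_inter_iff] at hη
  have η_smooth : CMDiff[Icc 0 1] 1 η := by
    apply ContMDiff.contMDiffOn
    rw [contMDiff_iff_contDiff]
    exact ContinuousAffineMap.contDiff _
  have h1 : riemannianEDist 𝓘(ℝ, E) y z ≤ pathELength 𝓘(ℝ, E) γ 0 1 := by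
    apply riemannianEDist_le_pathELength _ _ _ zero_le_one
    · exact (contMDiffOn_extChartAt_symm x₀).comp η_smooth hη.1
    · simp [γ, η, ContinuousAffineMap.coe_lineMap_eq, h'y]
    · simp [γ, η, ContinuousAffineMap.coe_lineMap_eq, h'z]
  apply h1.trans
  rw [pathELength_eq_lintegral_mfderivWithin_Icc]
  calc ∫⁻ t in Icc (0 : ℝ) 1, ‖mfderiv[Icc 0 1] γ t 1‖ₑ
      ≤ ∫⁻ t in Icc (0 : ℝ) 1, r * ‖S x₀ (extChartAt 𝓘(ℝ, E) x₀ z - extChartAt 𝓘(ℝ, E) x₀ y)‖ₑ := by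
        apply setLIntegral_mono' measurableSet_Icc (fun t ht ↦ ?_)
        have h2 : mfderiv[Icc 0 1] γ t =
            (mfderiv[range 𝓘(ℝ, E)] (extChartAt 𝓘(ℝ, E) x₀).symm (η t)) ∘L (mfderiv[Icc 0 1] η t) := by
          apply mfderivWithin_comp
          · exact mdifferentiableWithinAt_extChartAt_symm (hη.1 ht)
          · exact η_smooth.mdifferentiableOn one_ne_zero t ht
          · exact hη.1.trans (preimage_mono (extChartAt_target_subset_range x₀))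
          · rw [uniqueMDiffWithinAt_iff_uniqueDiffWithinAt]
            exact uniqueDiffOn_Icc zero_lt_one t ht
        have h3 : mfderiv[Icc 0 1] γ t 1 =
            (mfderiv[range 𝓘(ℝ, E)] (extChartAt 𝓘(ℝ, E) x₀).symm (η t)) (mfderiv[Icc 0 1] η t 1) :=
          congr($h2 1)
        rw [h3]
        refine (hη.2 ht _).trans ?_
        have h4 : mfderiv[Icc 0 1] η t 1 = (extChartAt 𝓘(ℝ, E) x₀ z - extChartAt 𝓘(ℝ, E) x₀ y : E) := by
          rw [mfderivWithin_eq_fderivWithin]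
          have : fderivWithin ℝ η (Icc 0 1) t = fderiv ℝ η t :=
            fderivWithin_eq_fderiv (uniqueDiffOn_Icc zero_lt_one _ ht)
              (ContinuousAffineMap.differentiableAt _)
          rw [this]
          exact fderiv_lineMap _ _ t
        rw [h4]
    _ = _ := by simp

set_option backward.isDefEq.respectTransparency false in
lemma chart_bound (x₀ : M) {r : ℝ≥0} (hr : 1 < r) :
    ∀ᶠ y in 𝓝 x₀, y ∈ (chartAt E x₀).source ∧
      ∀ v : TangentSpace 𝓘(ℝ, E) y,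
        ‖S (E := E) x₀ ((mfderiv% (extChartAt 𝓘(ℝ, E) x₀) y) v)‖ₑ ≤ r * ‖v‖ₑ := by
  have h1 := eventually_norm_symmL_trivializationAt_self_comp_lt E
    (fun x : M => TangentSpace 𝓘(ℝ, E) x) x₀ (r := r) (by exact_mod_cast hr)
  filter_upwards [h1, chart_source_mem_nhds E x₀] with y hy h'y
  refine ⟨h'y, fun v => ?_⟩
  have h7 := ContinuousLinearMap.le_of_opNorm_le _ hy.le v
  rw [ContinuousLinearMap.comp_apply, TangentBundle.continuousLinearMapAt_trivializationAt h'y] at h7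
  simp only [enorm, nnnorm]
  exact_mod_cast h7

/-- the extended chart, with values in the tangent space at the base point -/
def f (x₀ : M) (y : M) : TangentSpace 𝓘(ℝ, E) x₀ := S (E := E) x₀ (extChartAt 𝓘(ℝ, E) x₀ y)

omit [IsContinuousRiemannianBundle E (fun x : M => TangentSpace 𝓘(ℝ, E) x)] in
set_option backward.isDefEq.respectTransparency false in
lemma path_bound (x₀ : M) {r : ℝ≥0} {u : Set M} (hu : ∀ y ∈ u, y ∈ (chartAt E x₀).source ∧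
      ∀ v : TangentSpace 𝓘(ℝ, E) y,
        ‖S (E := E) x₀ ((mfderiv% (extChartAt 𝓘(ℝ, E) x₀) y) v)‖ₑ ≤ r * ‖v‖ₑ) (γ : ℝ → M)
    (γ_smooth : CMDiff 1 γ) {t₁ : ℝ} (h0 : 0 ≤ t₁) (hγ : ∀ t ∈ Icc 0 t₁, γ t ∈ u) :
    ‖f (E := E) x₀ (γ t₁) - f (E := E) x₀ (γ 0)‖ₑ ≤ r * pathELength 𝓘(ℝ, E) γ 0 t₁ := by
  rcases h0.eq_or_lt with rfl | h't'
  · simp
  let γ' : ℝ → E := extChartAt 𝓘(ℝ, E) x₀ ∘ γ
  have hC : CMDiff[Icc 0 t₁] 1 γ' :=
    contMDiffOn_extChartAt.comp (I' := 𝓘(ℝ, E)) (t := (chartAt E x₀).source)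
      γ_smooth.contMDiffOn (fun t' ht' ↦ (hu _ (hγ _ ht')).1)
  have hC' : ContDiffOn ℝ 1 γ' (Icc 0 t₁) := by rwa [← contMDiffOn_iff_contDiffOn]
  let g : ℝ → TangentSpace 𝓘(ℝ, E) x₀ := fun t => S (E := E) x₀ (γ' t)
  have hg : ContDiffOn ℝ 1 g (Icc 0 t₁) := (S (E := E) x₀).contDiff.comp_contDiffOn hC'
  calc ‖f (E := E) x₀ (γ t₁) - f (E := E) x₀ (γ 0)‖ₑ = ‖g t₁ - g 0‖ₑ := rfl
    _ ≤ ∫⁻ t' in Icc 0 t₁, ‖derivWithin g (Icc 0 t₁) t'‖ₑ :=
      enorm_sub_le_lintegral_derivWithin_Icc_of_contDiffOn_Icc hg h0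
    _ ≤ ∫⁻ t' in Icc 0 t₁, r * ‖mfderiv[Icc 0 t₁] γ t' 1‖ₑ := by
      apply setLIntegral_mono' measurableSet_Icc (fun t' ht' ↦ ?_)
      have h1 : mfderiv[Icc 0 t₁] γ' t' =
          (mfderiv% (extChartAt 𝓘(ℝ, E) x₀) (γ t')) ∘L (mfderiv[Icc 0 t₁] γ t') := by
        apply mfderiv_comp_mfderivWithin
        · exact mdifferentiableAt_extChartAt ((hu _ (hγ _ ht')).1)
        · exact (γ_smooth.mdifferentiable one_ne_zero).mdifferentiableOn _ ht'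
        · rw [uniqueMDiffWithinAt_iff_uniqueDiffWithinAt]
          exact uniqueDiffOn_Icc h't' _ ht'
      have h2 : mfderiv[Icc 0 t₁] γ' t' 1 =
          (mfderiv% (extChartAt 𝓘(ℝ, E) x₀) (γ t')) (mfderiv[Icc 0 t₁] γ t' 1) :=
        congr($h1 1)
      have h3 : derivWithin γ' (Icc 0 t₁) t' = mfderiv[Icc 0 t₁] γ' t' 1 := by
        rw [mfderivWithin_eq_fderivWithin, ← fderivWithin_derivWithin]
        rfl
      have h4 : derivWithin g (Icc 0 t₁) t' = S (E := E) x₀ (derivWithin γ' (Icc 0 t₁) t') := by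
        have h5 := (hC'.differentiableOn one_ne_zero t' ht').hasDerivWithinAt
        exact ((S (E := E) x₀).hasFDerivAt.comp_hasDerivWithinAt t' h5).derivWithin
          (uniqueDiffOn_Icc h't' _ ht')
      rw [h4, h3, h2]
      exact (hu _ (hγ _ ht')).2 _
    _ = r * pathELength 𝓘(ℝ, E) γ 0 t₁ := by
      rw [lintegral_const_mul' _ _ ENNReal.coe_ne_top,
          pathELength_eq_lintegral_mfderivWithin_Icc]

omit [RiemannianBundle (fun x : M => TangentSpace 𝓘(ℝ, E) x)]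
  [IsContinuousRiemannianBundle E (fun x : M => TangentSpace 𝓘(ℝ, E) x)] in
lemma continuousAt_f (x₀ : M) : ContinuousAt (f (E := E) x₀) x₀ :=
  (S (E := E) x₀).continuous.continuousAt.comp (continuousAt_extChartAt (I := 𝓘(ℝ, E)) x₀)

set_option backward.isDefEq.respectTransparency false in
lemma lower [RegularSpace M] (x₀ : M) {r : ℝ≥0} (hr : 1 < r) :
    ∃ U ∈ 𝓝 x₀, ∀ y ∈ U, ∀ z ∈ U,
      ‖f (E := E) x₀ z - f (E := E) x₀ y‖ₑ ≤ r * riemannianEDist 𝓘(ℝ, E) y z := by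
  obtain ⟨u, u_mem, u_closed, hu⟩ := exists_mem_nhds_isClosed_subset
    (chart_bound (E := E) x₀ hr)
  obtain ⟨v, ⟨v_mem, v_open⟩, hv⟩ : ∃ v, (v ∈ 𝓝 x₀ ∧ IsOpen v) ∧ v ⊆ u :=
    (nhds_basis_opens' x₀).mem_iff.1 u_mem
  have hW : (extChartAt 𝓘(ℝ, E) x₀).symm ⁻¹' v ∈ 𝓝 (extChartAt 𝓘(ℝ, E) x₀ x₀) :=
    extChartAt_preimage_mem_nhds v_mem
  have hA : A (E := E) x₀ ⁻¹' ((extChartAt 𝓘(ℝ, E) x₀).symm ⁻¹' v) ∈ 𝓝 (f (E := E) x₀ x₀) := by
    have h1 : ContinuousAt (A (E := E) x₀) (f (E := E) x₀ x₀) :=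
      (A (E := E) x₀).continuous.continuousAt
    apply h1.preimage_mem_nhds
    have h2 : A (E := E) x₀ (f (E := E) x₀ x₀) = extChartAt 𝓘(ℝ, E) x₀ x₀ := A_S x₀ _
    rw [h2]
    exact hW
  obtain ⟨ρ', ρ'pos, hρ'⟩ := EMetric.mem_nhds_iff.1 hA
  set ρ : ℝ≥0∞ := ρ' / 3 with hρ
  have ρpos : 0 < ρ := ENNReal.div_pos ρ'pos.ne' (by simp)
  have h3ρ : ρ + ρ + ρ = ρ' := by
    rw [hρ]
    exact ENNReal.add_thirds ρ'
  have hU : f (E := E) x₀ ⁻¹' (Metric.eball (f (E := E) x₀ x₀) ρ) ∈ 𝓝 x₀ :=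
    (continuousAt_f (E := E) x₀).preimage_mem_nhds (Metric.eball_mem_nhds _ ρpos)
  refine ⟨_, inter_mem hU v_mem, ?_⟩
  rintro y ⟨hy, hyv⟩ z ⟨hz, hzv⟩
  rw [mem_preimage, Metric.mem_eball, edist_eq_enorm_sub] at hy hz
  by_contra! hlt
  set D : ℝ≥0∞ := ‖f (E := E) x₀ z - f (E := E) x₀ y‖ₑ with hD
  have r_ne : (r : ℝ≥0∞) ≠ 0 := by
    have : r ≠ 0 := (zero_lt_one.trans hr).ne'
    exact_mod_cast this
  have hd : riemannianEDist 𝓘(ℝ, E) y z < D / r := by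
    rw [ENNReal.lt_div_iff_mul_lt (Or.inl r_ne) (Or.inl (by simp)), mul_comm]
    exact hlt
  have hDρ : D ≤ ρ + ρ := by
    calc D = ‖(f (E := E) x₀ z - f (E := E) x₀ x₀) - (f (E := E) x₀ y - f (E := E) x₀ x₀)‖ₑ := by
          rw [hD]; congr 1; abel
      _ ≤ ‖f (E := E) x₀ z - f (E := E) x₀ x₀‖ₑ + ‖f (E := E) x₀ y - f (E := E) x₀ x₀‖ₑ :=
          enorm_sub_le
      _ ≤ ρ + ρ := by gcongr
  obtain ⟨γ, hγy, hγz, γ_smooth, hγ, -⟩ := exists_lt_locally_constant_of_riemannianEDist_lt hd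
    zero_lt_one
  have hlen : ∀ t₁ ∈ Icc (0 : ℝ) 1, (∀ t ∈ Icc 0 t₁, γ t ∈ u) →
      ‖f (E := E) x₀ (γ t₁) - f (E := E) x₀ y‖ₑ < D := by
    intro t₁ ht₁ h
    calc ‖f (E := E) x₀ (γ t₁) - f (E := E) x₀ y‖ₑ
        = ‖f (E := E) x₀ (γ t₁) - f (E := E) x₀ (γ 0)‖ₑ := by rw [hγy]
      _ ≤ r * pathELength 𝓘(ℝ, E) γ 0 t₁ :=
          path_bound x₀ (fun y hy => hu hy) γ γ_smooth ht₁.1 h
      _ ≤ r * pathELength 𝓘(ℝ, E) γ 0 1 := by
          gcongr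
          exact ht₁.2
      _ < r * (D / r) := by
          gcongr
          exact ENNReal.coe_ne_top
      _ = D := ENNReal.mul_div_cancel r_ne ENNReal.coe_ne_top
  let Au := γ ⁻¹' u
  have zero_mem : 0 ∈ Au := by
    simp only [Au, mem_preimage, hγy]
    exact hv hyv
  have A_closed : IsClosed (Au ∩ Icc 0 1) :=
    (u_closed.preimage γ_smooth.continuous).inter isClosed_Icc
  have hall : Icc 0 1 ⊆ Au := by
    apply A_closed.Icc_subset_of_forall_mem_nhdsGT_of_Icc_subset zero_mem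
    rintro t₁ ⟨ht₁0, ht₁1⟩ t₁_mem
    suffices γ t₁ ∈ v from
      γ_smooth.continuous.continuousWithinAt <| mem_of_superset (v_open.mem_nhds this) hv
    have h1 := hlen t₁ ⟨ht₁0, ht₁1.le⟩ (fun t ht => t₁_mem ht)
    have h2 : f (E := E) x₀ (γ t₁) ∈ Metric.eball (f (E := E) x₀ x₀) ρ' := by
      rw [Metric.mem_eball, edist_eq_enorm_sub]
      calc ‖f (E := E) x₀ (γ t₁) - f (E := E) x₀ x₀‖ₑ
          = ‖(f (E := E) x₀ (γ t₁) - f (E := E) x₀ y) +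
            (f (E := E) x₀ y - f (E := E) x₀ x₀)‖ₑ := by congr 1; abel
        _ ≤ ‖f (E := E) x₀ (γ t₁) - f (E := E) x₀ y‖ₑ +
            ‖f (E := E) x₀ y - f (E := E) x₀ x₀‖ₑ := enorm_add_le _ _
        _ < (ρ + ρ) + ρ := ENNReal.add_lt_add (h1.trans_le hDρ) hy
        _ = ρ' := h3ρ
    have h3 := hρ' h2
    rw [mem_preimage, mem_preimage] at h3
    have h4 : A (E := E) x₀ (f (E := E) x₀ (γ t₁)) = extChartAt 𝓘(ℝ, E) x₀ (γ t₁) := A_S x₀ _
    have h5 : γ t₁ ∈ (extChartAt 𝓘(ℝ, E) x₀).source := by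
      rw [extChartAt_source]
      exact (hu (t₁_mem (right_mem_Icc.2 ht₁0))).1
    rwa [h4, (extChartAt 𝓘(ℝ, E) x₀).left_inv h5] at h3
  have := hlen 1 ⟨zero_le_one, le_rfl⟩ (fun t ht => hall ht)
  rw [hγz] at this
  exact lt_irrefl _ this

end L1

section M
variable {n : ℕ} {M : Type*} [EMetricSpace M] [ChartedSpace (EuclideanSpace ℝ (Fin n)) M]
  [IsManifold (𝓡 n) ∞ M] [RiemannianBundle (fun x : M => TangentSpace (𝓡 n) x)]
  [IsContMDiffRiemannianBundle (𝓡 n) ∞ (EuclideanSpace ℝ (Fin n))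
      (fun x : M => TangentSpace (𝓡 n) x)]
  [IsRiemannianManifold (𝓡 n) M]

/-- L1: in the chart at `x₀` the distance is infinitesimally the norm of the tangent space. -/
theorem edist_chart (x₀ : M) {ε : ℝ} (hε : 0 < ε) :
    ∃ U ∈ 𝓝 x₀, U ⊆ (chartAt (EuclideanSpace ℝ (Fin n)) x₀).source ∧ ∀ y ∈ U, ∀ z ∈ U,
      ENNReal.ofReal ((1 - ε) * ‖(show TangentSpace (𝓡 n) x₀ from
        (extChartAt (𝓡 n) x₀ y - extChartAt (𝓡 n) x₀ z : EuclideanSpace ℝ (Fin n)))‖) ≤ edist y z ∧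
      edist y z ≤ ENNReal.ofReal ((1 + ε) * ‖(show TangentSpace (𝓡 n) x₀ from
        (extChartAt (𝓡 n) x₀ y - extChartAt (𝓡 n) x₀ z : EuclideanSpace ℝ (Fin n)))‖) := by
  have : IsContinuousRiemannianBundle (EuclideanSpace ℝ (Fin n))
      (fun x : M => TangentSpace (𝓡 n) x) := by
    obtain ⟨g, hg, h⟩ := IsContMDiffRiemannianBundle.exists_contMDiff (IB := 𝓡 n) (n := ∞)
      (F := EuclideanSpace ℝ (Fin n)) (E := fun x : M => TangentSpace (𝓡 n) x)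
    exact ⟨g, hg.continuous, h⟩
  set r : ℝ≥0 := ⟨1 + ε, by linarith⟩ with hr
  have hrε : (r : ℝ) = 1 + ε := rfl
  have hr1 : 1 < r := by
    rw [← NNReal.coe_lt_coe, hrε]
    simp [hε]
  obtain ⟨U₁, hU₁, h₁⟩ := L1.upper (E := EuclideanSpace ℝ (Fin n)) x₀ hr1
  obtain ⟨U₂, hU₂, h₂⟩ := L1.lower (E := EuclideanSpace ℝ (Fin n)) x₀ hr1
  refine ⟨U₁ ∩ U₂ ∩ (chartAt (EuclideanSpace ℝ (Fin n)) x₀).source,
    inter_mem (inter_mem hU₁ hU₂) (chart_source_mem_nhds _ x₀), inter_subset_right, ?_⟩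
  rintro y ⟨⟨hy1, hy2⟩, -⟩ z ⟨⟨hz1, hz2⟩, -⟩
  set v : TangentSpace (𝓡 n) x₀ := (show TangentSpace (𝓡 n) x₀ from
        (extChartAt (𝓡 n) x₀ y - extChartAt (𝓡 n) x₀ z : EuclideanSpace ℝ (Fin n))) with hv
  have e1 : edist y z = riemannianEDist (𝓡 n) y z := IsRiemannianManifold.out y z
  have h3 : riemannianEDist (𝓡 n) y z ≤ r * ‖v‖ₑ := by
    have := h₁ z hz1 y hy1
    rw [L1.S_apply] at this
    rw [riemannianEDist_comm]
    exact this
  have h4 : ‖v‖ₑ ≤ r * riemannianEDist (𝓡 n) y z := by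
    have := h₂ z hz2 y hy2
    rw [L1.f, L1.f, ← map_sub, L1.S_apply] at this
    rw [riemannianEDist_comm]
    exact this
  rw [e1]
  constructor
  · calc ENNReal.ofReal ((1 - ε) * ‖v‖) ≤ ENNReal.ofReal (‖v‖ / (1 + ε)) := by
          apply ENNReal.ofReal_le_ofReal
          rw [le_div_iff₀ (by linarith)]
          nlinarith [norm_nonneg v, mul_nonneg (norm_nonneg v) (sq_nonneg ε)]
      _ = ‖v‖ₑ / r := by
          rw [ENNReal.ofReal_div_of_pos (by linarith), ← hrε, ENNReal.ofReal_coe_nnreal, ofReal_norm]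
      _ ≤ riemannianEDist (𝓡 n) y z := ENNReal.div_le_of_le_mul' h4
  · calc riemannianEDist (𝓡 n) y z ≤ r * ‖v‖ₑ := h3
      _ = ENNReal.ofReal ((1 + ε) * ‖v‖) := by
        rw [ENNReal.ofReal_mul (by linarith), ← hrε, ENNReal.ofReal_coe_nnreal, ofReal_norm]

end M

end Helper99.BQ
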