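import Mathlib
import Pool.Agent.Helper99.BQ.Defs

/-!
# Blocks L2 (midpoints) and L3 (translations are isometries) for MP_986e36_gt
-/

open scoped Manifold ContDiff ENNReal Topology NNReal
open Bundle Set Metric MeasureTheory Manifold Filter

noncomputable section

namespace Helper99.BQ

section M

lemma approx_midpoint {n : ℕ} {M : Type*} [EMetricSpace M]
    [ChartedSpace (EuclideanSpace ℝ (Fin n)) M]
    [RiemannianBundle (fun x : M => TangentSpace (𝓡 n) x)]
    [IsRiemannianManifold (𝓡 n) M] (x y : M) (h : edist x y ≠ ⊤) {ε : ℝ≥0∞} (hε : ε ≠ 0) :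
    ∃ z : M, edist x z = edist x y / 2 ∧ edist z y ≤ edist x y / 2 + ε := by
  have e1 : ∀ x y : M, edist x y = riemannianEDist (𝓡 n) x y := IsRiemannianManifold.out
  have h1 : riemannianEDist (𝓡 n) x y < edist x y + ε := by
    rw [← e1]
    exact ENNReal.lt_add_right h hε
  obtain ⟨γ, hγx, hγy, γ_smooth, hγ, -⟩ := exists_lt_locally_constant_of_riemannianEDist_lt h1
    zero_lt_one
  have hcont : ContinuousOn (fun t => edist x (γ t)) (Icc (0 : ℝ) 1) :=
    (continuous_const.edist γ_smooth.continuous).continuousOn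
  obtain ⟨t, ht, hxt⟩ : edist x y / 2 ∈ (fun t => edist x (γ t)) '' (Icc (0 : ℝ) 1) := by
    apply intermediate_value_Icc zero_le_one hcont
    simp only [hγx, hγy, edist_self]
    exact ⟨bot_le, ENNReal.half_le_self⟩
  refine ⟨γ t, hxt, ?_⟩
  have h2 : edist x (γ t) ≤ pathELength (𝓡 n) γ 0 t := by
    rw [e1]
    exact riemannianEDist_le_pathELength γ_smooth.contMDiffOn hγx rfl ht.1
  have h3 : edist (γ t) y ≤ pathELength (𝓡 n) γ t 1 := by
    rw [e1]
    exact riemannianEDist_le_pathELength γ_smooth.contMDiffOn rfl hγy ht.2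
  have h4 : pathELength (𝓡 n) γ 0 t + pathELength (𝓡 n) γ t 1 = pathELength (𝓡 n) γ 0 1 :=
    pathELength_add ht.1 ht.2
  have h5 : edist x y / 2 + edist (γ t) y ≤ edist x y / 2 + (edist x y / 2 + ε) := by
    rw [← add_assoc, ENNReal.add_halves]
    calc edist x y / 2 + edist (γ t) y
        ≤ pathELength (𝓡 n) γ 0 t + pathELength (𝓡 n) γ t 1 := by
          gcongr
          exact hxt ▸ h2
      _ ≤ edist x y + ε := h4 ▸ hγ.le
  exact (ENNReal.add_le_add_iff_left (ENNReal.div_ne_top h (by simp))).1 h5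

/-- L2: midpoints -/
theorem exists_midpoint {n : ℕ} {M : Type*} [EMetricSpace M]
    [ChartedSpace (EuclideanSpace ℝ (Fin n)) M]
    [RiemannianBundle (fun x : M => TangentSpace (𝓡 n) x)]
    [IsRiemannianManifold (𝓡 n) M] [CompactSpace M] (x y : M) (h : edist x y ≠ ⊤) :
    ∃ z : M, edist x z = edist x y / 2 ∧ edist z y = edist x y / 2 := by
  let K : ℕ → Set M := fun k => {z | edist x z = edist x y / 2 ∧
    edist z y ≤ edist x y / 2 + (k + 1 : ℝ≥0∞)⁻¹}
  have hK : (⋂ k, K k).Nonempty := by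
    apply IsCompact.nonempty_iInter_of_sequence_nonempty_isCompact_isClosed
    · rintro k z ⟨h1, h2⟩
      refine ⟨h1, h2.trans ?_⟩
      gcongr
      simp
    · intro k
      exact approx_midpoint (n := n) x y h (by simp)
    · refine IsClosed.isCompact ?_
      exact (isClosed_eq (continuous_const.edist continuous_id) continuous_const).inter
        (isClosed_le (continuous_id.edist continuous_const) continuous_const)
    · intro k
      exact (isClosed_eq (continuous_const.edist continuous_id) continuous_const).inter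
        (isClosed_le (continuous_id.edist continuous_const) continuous_const)
  obtain ⟨z, hz⟩ := hK
  rw [mem_iInter] at hz
  refine ⟨z, (hz 0).1, le_antisymm ?_ ?_⟩
  · have h1 : Tendsto (fun k : ℕ => edist x y / 2 + (k + 1 : ℝ≥0∞)⁻¹) atTop
        (𝓝 (edist x y / 2 + 0)) := by
      refine tendsto_const_nhds.add ?_
      have := ENNReal.tendsto_inv_nat_nhds_zero.comp (tendsto_add_atTop_nat 1)
      refine this.congr fun k => ?_
      simp
    rw [add_zero] at h1
    exact ge_of_tendsto' h1 (fun k => (hz k).2)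
  · have h1 : edist x y ≤ edist x z + edist z y := edist_triangle _ _ _
    rw [(hz 0).1] at h1
    have h2 : edist x y / 2 + edist x y / 2 ≤ edist x y / 2 + edist z y := by
      rwa [ENNReal.add_halves]
    exact (ENNReal.add_le_add_iff_left (ENNReal.div_ne_top h (by simp))).1 h2

lemma edist_le_of_norm_mfderiv {n : ℕ} {M : Type*} [EMetricSpace M]
    [ChartedSpace (EuclideanSpace ℝ (Fin n)) M]
    [RiemannianBundle (fun x : M => TangentSpace (𝓡 n) x)]
    [IsRiemannianManifold (𝓡 n) M] (F : M → M) (hF : ContMDiff (𝓡 n) (𝓡 n) 1 F)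
    (h : ∀ (x : M) (v : TangentSpace (𝓡 n) x), ‖mfderiv (𝓡 n) (𝓡 n) F x v‖ = ‖v‖) (x y : M) :
    edist (F x) (F y) ≤ edist x y := by
  have e1 : ∀ x y : M, edist x y = riemannianEDist (𝓡 n) x y := IsRiemannianManifold.out
  rw [e1, e1]
  apply le_of_forall_gt (fun r hr ↦ ?_)
  obtain ⟨γ, hγx, hγy, γ_smooth, hγ⟩ := exists_lt_of_riemannianEDist_lt hr
  refine lt_of_le_of_lt ?_ hγ
  have h1 : riemannianEDist (𝓡 n) (F x) (F y) ≤ pathELength (𝓡 n) (F ∘ γ) 0 1 :=
    riemannianEDist_le_pathELength (hF.comp_contMDiffOn γ_smooth) (by simp [hγx]) (by simp [hγy])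
      zero_le_one
  refine h1.trans (le_of_eq ?_)
  rw [pathELength_eq_lintegral_mfderivWithin_Icc, pathELength_eq_lintegral_mfderivWithin_Icc]
  apply setLIntegral_congr_fun measurableSet_Icc (fun t ht ↦ ?_)
  have h2 : mfderivWithin 𝓘(ℝ, ℝ) (𝓡 n) (F ∘ γ) (Icc 0 1) t =
      (mfderiv (𝓡 n) (𝓡 n) F (γ t)) ∘L (mfderivWithin 𝓘(ℝ, ℝ) (𝓡 n) γ (Icc 0 1) t) := by
    apply mfderiv_comp_mfderivWithin
    · exact hF.mdifferentiableAt one_ne_zero
    · exact γ_smooth.mdifferentiableOn one_ne_zero t ht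
    · rw [uniqueMDiffWithinAt_iff_uniqueDiffWithinAt]
      exact uniqueDiffOn_Icc zero_lt_one _ ht
  have h3 : mfderivWithin 𝓘(ℝ, ℝ) (𝓡 n) (F ∘ γ) (Icc 0 1) t 1 =
      (mfderiv (𝓡 n) (𝓡 n) F (γ t)) (mfderivWithin 𝓘(ℝ, ℝ) (𝓡 n) γ (Icc 0 1) t 1) :=
    congr($h2 1)
  rw [h3]
  have h4 := h (γ t) (mfderivWithin 𝓘(ℝ, ℝ) (𝓡 n) γ (Icc 0 1) t 1)
  simp only [enorm, nnnorm]
  congr 1
  exact Subtype.ext h4

end M

section G
variable {n : ℕ} {G : Type*} [Group G] [EMetricSpace G]
  [ChartedSpace (EuclideanSpace ℝ (Fin n)) G] [LieGroup (𝓡 n) ∞ G]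
  [RiemannianBundle (fun x : G => TangentSpace (𝓡 n) x)]
  [IsRiemannianManifold (𝓡 n) G]

/-- L3 -/
theorem edist_mul_left' (h : ∀ (g x : G) (v : TangentSpace (𝓡 n) x),
    ‖mfderiv (𝓡 n) (𝓡 n) (fun y => g * y) x v‖ = ‖v‖) (g x y : G) :
    edist (g * x) (g * y) = edist x y := by
  have key : ∀ g x y : G, edist (g * x) (g * y) ≤ edist x y := fun g x y =>
    edist_le_of_norm_mfderiv (n := n) (fun y => g * y) contMDiff_mul_left (h g) x y
  refine le_antisymm (key g x y) ?_
  simpa using key g⁻¹ (g * x) (g * y)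

theorem edist_mul_right' (h : ∀ (g x : G) (v : TangentSpace (𝓡 n) x),
    ‖mfderiv (𝓡 n) (𝓡 n) (fun y => y * g) x v‖ = ‖v‖) (g x y : G) :
    edist (x * g) (y * g) = edist x y := by
  have key : ∀ g x y : G, edist (x * g) (y * g) ≤ edist x y := fun g x y =>
    edist_le_of_norm_mfderiv (n := n) (fun y => y * g) contMDiff_mul_right (h g) x y
  refine le_antisymm (key g x y) ?_
  simpa using key g⁻¹ (x * g) (y * g)

end G

end Helper99.BQ
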